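import Mathlib

/-!
# Project GQ: the localisation of the integers at a prime number (Mathlib only)
-/

set_option autoImplicit false

namespace Pool.Agent.H81.GQ

theorem dvr0 (p : ℕ) (hp : p.Prime) : ∃ (R : Type) (_ : CommRing R) (_ : IsDomain R)
    (_ : IsDiscreteValuationRing R) (_ : Algebra R ℚ) (_ : IsFractionRing R ℚ)
    (_ : Fintype (IsLocalRing.ResidueField R)), Fintype.card (IsLocalRing.ResidueField R) = p ∧
      ∀ z : ℤ, (z : R) ∈ IsLocalRing.maximalIdeal R ↔ (p : ℤ) ∣ z := by
  classical
  have hpZ : Prime (p : ℤ) := Nat.prime_iff_prime_int.1 hp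
  obtain ⟨P, hP⟩ : ∃ P : Ideal ℤ, P = Ideal.span {(p : ℤ)} := ⟨_, rfl⟩
  have hPp : P.IsPrime := by
    rw [hP]
    exact (Ideal.span_singleton_prime hpZ.ne_zero).2 hpZ
  have hP0 : P ≠ ⊥ := by
    rw [hP, Ne, Ideal.span_singleton_eq_bot]
    exact hpZ.ne_zero
  have hPm : P.IsMaximal := hPp.isMaximal hP0
  have hle : P.primeCompl ≤ nonZeroDivisors ℤ := Ideal.primeCompl_le_nonZeroDivisors P
  have hdom : IsDomain (Localization.AtPrime P) :=
    IsLocalization.isDomain_localization hle
  have hdvr : IsDiscreteValuationRing (Localization.AtPrime P) :=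
    IsLocalization.AtPrime.isDiscreteValuationRing_of_dedekind_domain ℤ hP0 _
  let alg : Algebra (Localization.AtPrime P) ℚ :=
    IsLocalization.localizationAlgebraOfSubmonoidLe (Localization.AtPrime P) ℚ P.primeCompl
      (nonZeroDivisors ℤ) hle
  have htower :=
    IsLocalization.localization_isScalarTower_of_submonoid_le (Localization.AtPrime P) ℚ
      P.primeCompl (nonZeroDivisors ℤ) hle
  have hfrac : IsFractionRing (Localization.AtPrime P) ℚ :=
    @IsFractionRing.isFractionRing_of_isDomain_of_isLocalization ℤ _ P.primeCompl _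
      (Localization.AtPrime P) ℚ _ _ _ _ _ htower _ _
  let e : ZMod p ≃+* IsLocalRing.ResidueField (Localization.AtPrime P) :=
    (Int.quotientSpanNatEquivZMod p).symm.trans
      ((Ideal.quotEquivOfEq hP.symm).trans
        (IsLocalization.AtPrime.equivQuotMaximalIdeal P (Localization.AtPrime P)))
  have : NeZero p := ⟨hp.ne_zero⟩
  let ft : Fintype (IsLocalRing.ResidueField (Localization.AtPrime P)) :=
    Fintype.ofEquiv (ZMod p) e.toEquiv
  refine ⟨Localization.AtPrime P, inferInstance, hdom, hdvr, alg, hfrac, ft, ?_, fun z => ?_⟩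
  · rw [← Fintype.card_congr e.toEquiv, ZMod.card]
  · have h1 := IsLocalization.AtPrime.to_map_mem_maximal_iff (Localization.AtPrime P) P z
    rw [eq_intCast] at h1
    rw [h1, hP, Ideal.mem_span_singleton]

end Pool.Agent.H81.GQ
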