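import Pool.Agent.H77.GQ.Stm
import Pool.Agent.H81.GQ.Dvr0

/-!
# Project GQ: module DVR
-/

set_option autoImplicit false

namespace Pool.Agent.H81.GQ

/-- **Module DVR.** -/
theorem dvr : Pool.Agent.H77.GQ.S_DVR := dvr0

end Pool.Agent.H81.GQ
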